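import Pool.Agent.Lib.MP_205740_an.Proofs

/-!
# Chebyshev-type quadrature node counts are not stable under bounded multiplicative perturbations
-/

open MeasureTheory Real Set Filter
open scoped Topology ContDiff

namespace Pool.Agent.Results.MP_205740_an.NodeCounts

open Pool.Agent.Lib.MP_205740_an

/-- **Disproof of the comparison of node counts.**  For all `0 < m < M`, and for every degree
`n ≥ 2`, the ratio `N_{hW}(n) / N_W(n)` is unbounded above, and it is not bounded away from `0`,
over `2π`-periodic weights `W` and perturbations `m < h < M`.  This already happens with a single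
real-analytic `h` (the same one for all `n`) and with positive real-analytic weights `W`;
one of the two counts stays at most `2 n` while the other one, although finite, exceeds any given
bound `B`. -/
theorem result (m M : ℝ) (hm : 0 < m) (hmM : m < M) :
    (∃ h : ℝ → ℝ, IsPerturbation m M h ∧ ContDiff ℝ ω h ∧
      ∀ n : ℕ, 2 ≤ n → ∀ B : ℕ, ∃ W : ℝ → ℝ,
        IsWeight W ∧ (∀ t, 0 < W t) ∧ ContDiff ℝ ω W ∧
        nodeCount W n ≤ 2 * n ∧
        B < nodeCount (fun t => h t * W t) n ∧ nodeCount (fun t => h t * W t) n < ⊤) ∧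
    (∃ h : ℝ → ℝ, IsPerturbation m M h ∧ ContDiff ℝ ω h ∧
      ∀ n : ℕ, 2 ≤ n → ∀ B : ℕ, ∃ W : ℝ → ℝ,
        IsWeight W ∧ (∀ t, 0 < W t) ∧ ContDiff ℝ ω W ∧
        nodeCount (fun t => h t * W t) n ≤ 2 * n ∧
        B < nodeCount W n ∧ nodeCount W n < ⊤) := by
  set a : ℝ := (m + M) / 2 with ha
  have ha0 : 0 < a := by rw [ha]; linarith
  obtain ⟨x, hx, hxbad⟩ : ∃ x ∈ Ioo (0 : ℝ) ((M - m) / (M + m)), x ∉ badSet := by
    have hd : Dense (badSetᶜ) := badSet_countable.dense_compl ℝ
    have hne : (Ioo (0 : ℝ) ((M - m) / (M + m))).Nonempty := by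
      rw [nonempty_Ioo]
      have : 0 < M - m := by linarith
      have : 0 < M + m := by linarith
      positivity
    obtain ⟨x, hx1, hx2⟩ := hd.inter_open_nonempty _ isOpen_Ioo hne
    exact ⟨x, hx1, hx2⟩
  have hMm : 0 < M + m := by linarith
  have hx0 : 0 < x := hx.1
  have hax : a * x < (M - m) / 2 := by
    have := hx.2
    rw [lt_div_iff₀ hMm] at this
    rw [ha]
    linarith
  have hx1 : x < 1 := by
    have h1 : (M - m) / (M + m) < 1 := by rw [div_lt_one hMm]; linarith
    linarith [hx.2]
  have hb0 : 0 ≤ a * x := by positivity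
  have hbounds : ∀ t, m < pert a (a * x) t ∧ pert a (a * x) t < M := by
    intro t
    apply pert_bounds hb0
    · rw [ha] at hax ⊢; linarith
    · rw [ha] at hax ⊢; linarith
  have hpos : ∀ t, 0 < pert a (a * x) t := fun t => lt_trans hm (hbounds t).1
  have hM0 : 0 < M := by linarith
  constructor
  · refine ⟨pert a (a * x), ⟨(pert_continuous _ _).measurable, pert_periodic _ _,
      Eventually.of_forall hbounds⟩, pert_contDiff _ _, ?_⟩
    intro n hn B
    obtain ⟨K, hK, hKB⟩ := exists_wt hn ha0 hx0.le hx1 hxbad B
    have hWc := wt_continuous n hK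
    refine ⟨wt n K, isWeight_of hWc (wt_periodic n K) (wt_pos n hK), wt_pos n hK,
      wt_contDiff n hK, ?_, lt_nodeCount hKB, ?_⟩
    · have h := nodeCount_le (hasQuadrature_wt (by omega : 0 < n) hK)
      refine le_trans h (le_of_eq ?_)
      push_cast
      ring
    · obtain ⟨N, hN⟩ := exists_hasQuadrature n (W := fun t => pert a (a * x) t * wt n K t)
        ((pert_continuous _ _).mul hWc) ((pert_periodic _ _).mul (wt_periodic n K))
        (fun t => mul_pos (hpos t) (wt_pos n hK t))
      exact lt_of_le_of_lt (nodeCount_le hN) (ENat.natCast_lt_top N)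
  · have hcd : ContDiff ℝ ω (fun t => m * M / pert a (a * x) t) :=
      contDiff_const.div (pert_contDiff _ _) (fun t => (hpos t).ne')
    refine ⟨fun t => m * M / pert a (a * x) t, ⟨hcd.continuous.measurable, ?_, ?_⟩, hcd, ?_⟩
    · intro t
      simp only
      rw [pert_periodic]
    · refine Eventually.of_forall fun t => ?_
      have h1 := (hbounds t).1
      have h2 := (hbounds t).2
      constructor
      · rw [lt_div_iff₀ (hpos t)]; gcongr
      · rw [div_lt_iff₀ (hpos t), mul_comm]; gcongr
    intro n hn B
    obtain ⟨K, hK, hKB⟩ := exists_wt hn ha0 hx0.le hx1 hxbad B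
    have hWc := wt_continuous n hK
    have hW'c : Continuous (fun t => pert a (a * x) t * wt n K t) := (pert_continuous _ _).mul hWc
    have hW'p : Function.Periodic (fun t => pert a (a * x) t * wt n K t) (2 * π) :=
      (pert_periodic _ _).mul (wt_periodic n K)
    have hW'pos : ∀ t, 0 < pert a (a * x) t * wt n K t :=
      fun t => mul_pos (hpos t) (wt_pos n hK t)
    refine ⟨fun t => pert a (a * x) t * wt n K t, isWeight_of hW'c hW'p hW'pos, hW'pos,
      (pert_contDiff _ _).mul (wt_contDiff n hK), ?_, lt_nodeCount hKB, ?_⟩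
    · have he : (fun t => m * M / pert a (a * x) t * (pert a (a * x) t * wt n K t))
          = fun t => (m * M) * wt n K t := by
        funext t
        have := hpos t
        field_simp
      rw [he]
      have h := nodeCount_le (hasQuadrature_const_mul (m * M)
        (hasQuadrature_wt (by omega : 0 < n) hK))
      refine le_trans h (le_of_eq ?_)
      push_cast
      ring
    · obtain ⟨N, hN⟩ := exists_hasQuadrature n hW'c hW'p hW'pos
      exact lt_of_le_of_lt (nodeCount_le hN) (ENat.natCast_lt_top N)

end Pool.Agent.Results.MP_205740_an.NodeCounts
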